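import Pool.Agent.H749.GS.Ops
import Pool.Graph.R_pool_sql_team_seeded_3997aac3.Q171.DG.Fin

/-!
# The vanishing of `Ext^{s,t}` for `α(t) > s`: splitting the binary expansion at long gaps
-/

set_option autoImplicit false
set_option linter.unusedSectionVars false

namespace Pool.Agent.H749.GV

open Finset MvPolynomial TensorProduct Pool.Agent.H749.GK.St
open Pool.Agent.H749.GS hiding al
open Pool.Agent.Q171.DG (al al_rec al_zero al_two al_two1 count_al van)

/-! ### The digit sum -/

theorem al_pow2 (n t : ℕ) : al (2 ^ n * t) = al t := by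
  induction n with
  | zero => rw [pow_zero, one_mul]
  | succ n ih => rw [pow_succ', mul_assoc, al_two, ih]

theorem al_split (ρ : ℕ) : ∀ T c : ℕ, 2 ^ ρ ∣ T → c < 2 ^ ρ → al (T + c) = al T + al c := by
  induction ρ with
  | zero =>
    intro T c _ hc
    obtain rfl : c = 0 := by simpa using hc
    rw [add_zero, al_zero, add_zero]
  | succ ρ ih =>
    rintro T c ⟨T', rfl⟩ hc
    have h1 : 2 ^ (ρ + 1) * T' = 2 * (2 ^ ρ * T') := by rw [pow_succ']; ring
    rw [h1]
    rcases Nat.even_or_odd' c with ⟨c', rfl | rfl⟩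
    · rw [← mul_add, al_two, al_two, al_two]
      exact ih _ _ (Dvd.intro _ rfl) (by rw [pow_succ'] at hc; omega)
    · rw [← add_assoc, ← mul_add, al_two1, al_two, al_two1, ih _ _ (Dvd.intro _ rfl)
        (by rw [pow_succ'] at hc; omega)]
      ring

/-! ### The library's vanishing theorem -/

theorem fS_eq (p : P) : Pool.Agent.Q171.DG.fS p = face 0 p := by
  have : (Pool.Agent.Q171.DG.fS : P →ₐ[ZMod 2] P) = face 0 := by
    apply algHom_ext
    rintro ⟨a, n⟩
    rw [Pool.Agent.Q171.DG.fS, face, aeval_X, aeval_X]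
    simp only
    rw [if_neg (by omega), if_neg (by omega)]
  rw [this]

theorem fM_eq (m : ℕ) (p : P) : Pool.Agent.Q171.DG.fM m p = face (m + 1) p := by
  have : (Pool.Agent.Q171.DG.fM m : P →ₐ[ZMod 2] P) = face (m + 1) := by
    apply algHom_ext
    rintro ⟨a, n⟩
    rw [Pool.Agent.Q171.DG.fM, face, aeval_X, aeval_X]
    simp only
    rcases lt_trichotomy a m with h | h | h
    · rw [if_pos h, if_pos (by omega)]
    · subst h
      rw [if_neg (by omega), if_pos rfl, if_neg (by omega), if_pos rfl, coprod]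
      refine sum_congr rfl fun i hi => ?_
      rw [mem_range] at hi
      congr 2
      · by_cases h1 : i = n + 1
        · rw [if_pos h1, h1, Nat.sub_self]; rfl
        · rw [if_neg h1, show n + 1 - i = (n - i) + 1 by omega]; rfl
      · by_cases h1 : i = 0
        · rw [if_pos h1, h1]; rfl
        · rw [if_neg h1]
          obtain ⟨i', rfl⟩ : ∃ i', i = i' + 1 := ⟨i - 1, by omega⟩
          rfl
    · rw [if_neg (by omega), if_neg (by omega), if_neg (by omega), if_neg (by omega)]
  rw [this]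

theorem face_last {s : ℕ} {p : P} (hp : p ∈ Sup s) : face (s + 1) p = p := by
  have h := Pool.Agent.H749.GS.face_ge (s := s) (j := s + 1) hp (by omega)
  exact h

theorem fd_eq {s : ℕ} {p : P} (hp : p ∈ Sup s) : Pool.Agent.Q171.DG.fS p + p
    + ∑ m ∈ range s, Pool.Agent.Q171.DG.fM m p = d s p := by
  rw [d_apply, sum_range_succ, sum_range_succ', face_last hp, fS_eq,
    sum_congr rfl fun m _ => fM_eq m p]
  ring

theorem homJ {t : ℕ} {x : P} :
    IsWeightedHomogeneous (fun p : ℕ × ℕ => 2 ^ (p.2 + 1) - 1) x t ↔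
      IsWeightedHomogeneous wt x (t : ℤ) := by
  have h1 : ∀ e : (ℕ × ℕ) →₀ ℕ, Finsupp.weight wt e
      = ((Finsupp.weight (fun p : ℕ × ℕ => 2 ^ (p.2 + 1) - 1) e : ℕ) : ℤ) := by
    intro e
    rw [Finsupp.weight_apply, Finsupp.weight_apply, Finsupp.sum, Finsupp.sum]
    push_cast
    refine sum_congr rfl fun v _ => ?_
    rw [nsmul_eq_mul, smul_eq_mul]
    push_cast
    rw [Nat.cast_sub (Nat.one_le_two_pow)]
    push_cast
    rfl
  constructor
  · intro h e he
    rw [h1, h he]
  · intro h e he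
    have h2 := h he
    rw [h1] at h2
    exact_mod_cast h2

/-- the vanishing theorem of the library -/
theorem tw {s t : ℕ} (h1 : s < al t) (h2 : 2 * s ≤ al t + 1) (α : Ext s (t : ℤ)) : α = 0 := by
  obtain ⟨x, rfl⟩ := cl_surj α
  apply cl_zero.mpr
  have hx : x.1 ∈ Sup s := x.2.1.1
  have hd : d s x.1 = 0 := LinearMap.mem_ker.mp x.2.2
  rcases van s t (by rwa [count_al]) (by rwa [count_al]) x.1 hx (homJ.mpr x.2.1.2)
    (by rw [fd_eq hx, hd]) with h | ⟨n, rfl, q, hq, hq2⟩
  · rw [h]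
    exact Submodule.zero_mem _
  · -- the homogeneous component of `q`
    have h3 : d n q = x.1 := by rw [← hq2, fd_eq hq]
    have h4 : x.1 ∈ Pool.Agent.Q171.ND3.St.B (n + 1) :=
      Submodule.mem_map.mpr ⟨q, hq, by rw [d_eq, h3]⟩
    have h5 : Pool.Agent.Q171.ND3.St.IsHom t x.1 := homJ.mpr x.2.1.2
    obtain ⟨y, hy, hd2⟩ := Submodule.mem_map.mp h4
    refine Submodule.mem_map.mpr ⟨Pool.Agent.Q171.ND3.St.cmp t y,
      ⟨Pool.Agent.Q171.ND3.St.cmp_C hy, homJ.mp (Pool.Agent.Q171.ND3.St.cmp_hom t y)⟩, ?_⟩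
    rw [← d_eq, ← Pool.Agent.Q171.ND3.St.cmp_d, hd2]
    exact Pool.Agent.Q171.ND3.St.cmp_same h5

/-! ### Splitting at a gap -/

/-- Künneth: a vanishing result -/
theorem split_van {s ρ T c : ℕ} (hT : 2 ^ (ρ + 2 * s + 1) ∣ T) (hc : c < 2 ^ ρ)
    (h : ∀ a b, a + b = s → (∀ α : Ext a (T : ℤ), α = 0) ∨ (∀ α : Ext b (c : ℤ), α = 0))
    (α : Ext s ((T + c : ℕ) : ℤ)) : α = 0 := by
  have hT' : (2 : ℤ) ^ (ρ + 2 * s + 1) ∣ (T : ℤ) := by exact_mod_cast hT
  have hc' : (c : ℤ) < 2 ^ ρ := by exact_mod_cast hc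
  have key : ∀ (τ : ℤ), τ = (T : ℤ) + (c : ℤ) → ∀ α : Ext s τ, α = 0 := by
    rintro τ rfl α
    obtain ⟨F, rfl⟩ := KK_surj hT' (Int.natCast_nonneg c) hc' α
    rw [KK]
    refine sum_eq_zero fun p hp => ?_
    have h0 : F p.1 p.2 = 0 := by
      rcases h p.1 p.2 (HasAntidiagonal.mem_antidiagonal.mp hp) with h1 | h1
      · generalize F p.1 p.2 = τ
        induction τ using TensorProduct.induction_on with
        | zero => rfl
        | add x y hx hy => rw [hx, hy, add_zero]
        | tmul x y => rw [h1 x, zero_tmul]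
      · generalize F p.1 p.2 = τ
        induction τ using TensorProduct.induction_on with
        | zero => rfl
        | add x y hx hy => rw [hx, hy, add_zero]
        | tmul x y => rw [h1 y, tmul_zero]
    rw [h0, map_zero]
  exact key _ (by push_cast; rfl) α

/-- dividing the degree by two -/
theorem half_van {s t : ℕ} (ht : 2 ^ (2 * s + 1) ∣ t) (h : ∀ α : Ext s (t : ℤ), α = 0)
    (α : Ext s ((2 * t : ℕ) : ℤ)) : α = 0 := by
  have ht' : (2 : ℤ) ^ (2 * s + 1) ∣ (t : ℤ) := by exact_mod_cast ht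
  obtain ⟨β, rfl⟩ := S0_surj (s := s) (t := (t : ℤ)) (by push_cast; ring) ht' α
  rw [h β, map_zero]

/-! ### Blocks -/

theorem block_lt {T q : ℕ → ℕ} {s : ℕ} (h1 : ∀ i, T i < 2 ^ q i)
    (h2 : ∀ i, 2 ^ (q i + 2 * s + 1) ∣ T (i + 1)) (h3 : ∀ i, q i ≤ q (i + 1)) (n : ℕ) :
    ∑ i ∈ range (n + 1), T i < 2 ^ q n := by
  induction n with
  | zero => simpa using h1 0
  | succ n ih =>
    rw [sum_range_succ]
    rcases Nat.eq_zero_or_pos (T (n + 1)) with h | h
    · rw [h, add_zero]
      exact lt_of_lt_of_le ih (Nat.pow_le_pow_right (by norm_num) (h3 n))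
    · obtain ⟨k, hk⟩ := h2 n
      have hk1 : q n + 2 * s + 1 ≤ q (n + 1) := by
        by_contra hcon
        have h4 : 2 ^ q (n + 1) ≤ 2 ^ (q n + 2 * s + 1) :=
          Nat.pow_le_pow_right (by norm_num) (by omega)
        have h5 := Nat.le_of_dvd h (h2 n)
        have := h1 (n + 1)
        omega
      -- both are multiples of `2 ^ (q n + 2 s + 1)`
      obtain ⟨e, he⟩ : ∃ e, q (n + 1) = q n + 2 * s + 1 + e := ⟨q (n + 1) - (q n + 2 * s + 1), by omega⟩
      have h6 : T (n + 1) < 2 ^ (q n + 2 * s + 1) * 2 ^ e := by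
        rw [← pow_add, ← he]; exact h1 _
      rw [hk] at h6
      have h7 : k < 2 ^ e := Nat.lt_of_mul_lt_mul_left h6
      have h8 : 2 ^ (q n + 2 * s + 1) * (k + 1) ≤ 2 ^ (q n + 2 * s + 1) * 2 ^ e :=
        Nat.mul_le_mul_left _ h7
      have h9 : 2 ^ q n ≤ 2 ^ (q n + 2 * s + 1) := Nat.pow_le_pow_right (by norm_num) (by omega)
      rw [he, pow_add 2 (q n + 2 * s + 1) e, hk]
      calc (∑ i ∈ range (n + 1), T i) + 2 ^ (q n + 2 * s + 1) * k
          < 2 ^ (q n + 2 * s + 1) + 2 ^ (q n + 2 * s + 1) * k := by omega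
        _ = 2 ^ (q n + 2 * s + 1) * (k + 1) := by ring
        _ ≤ _ := h8

/-- the local-to-global principle -/
theorem blocks {s : ℕ} {T q β : ℕ → ℕ} (h1 : ∀ i, T i < 2 ^ q i)
    (h2 : ∀ i, 2 ^ (q i + 2 * s + 1) ∣ T (i + 1)) (h3 : ∀ i, q i ≤ q (i + 1))
    (h4 : ∀ i a, a < β i → a ≤ s → ∀ α : Ext a (T i : ℤ), α = 0) (n : ℕ) :
    ∀ a, a ≤ s → a < ∑ i ∈ range (n + 1), β i →
      ∀ α : Ext a ((∑ i ∈ range (n + 1), T i : ℕ) : ℤ), α = 0 := by
  induction n with
  | zero =>
    intro a ha hb α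
    have e : ∑ i ∈ range (0 + 1), T i = T 0 := by simp
    have e2 : ∑ i ∈ range (0 + 1), β i = β 0 := by simp
    rw [e2] at hb
    revert α
    rw [e]
    exact h4 0 a hb ha
  | succ n ih =>
    intro a ha hb α
    revert α
    rw [sum_range_succ, add_comm]
    rw [sum_range_succ] at hb
    refine split_van (ρ := q n) (dvd_trans (pow_dvd_pow 2 (by omega)) (h2 n)) (block_lt h1 h2 h3 n) ?_
    intro x y hxy
    by_cases hx : x < β (n + 1)
    · exact Or.inl (h4 (n + 1) x hx (by omega))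
    · exact Or.inr (ih y (by omega) (by omega))

/-- the bound from the library's theorem -/
theorem tw_min {a t : ℕ} (h : a < min (al t) ((al t + 3) / 2)) (α : Ext a (t : ℤ)) : α = 0 :=
  tw (by omega) (by omega) α

/-- the unconditional vanishing -/
theorem blocks_min {s : ℕ} {T q : ℕ → ℕ} (h1 : ∀ i, T i < 2 ^ q i)
    (h2 : ∀ i, 2 ^ (q i + 2 * s + 1) ∣ T (i + 1)) (h3 : ∀ i, q i ≤ q (i + 1)) (n : ℕ)
    (hs : s < ∑ i ∈ range (n + 1), min (al (T i)) ((al (T i) + 3) / 2)) :
    ∀ α : Ext s ((∑ i ∈ range (n + 1), T i : ℕ) : ℤ), α = 0 :=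
  blocks (β := fun i => min (al (T i)) ((al (T i) + 3) / 2)) h1 h2 h3
    (fun _ _ h _ => tw_min h) n s le_rfl hs

/-! ### Reduction to small degrees -/

theorem log_split {t : ℕ} (ht : 0 < t) : ∃ k r, t = 2 ^ k + r ∧ r < 2 ^ k := by
  refine ⟨Nat.log 2 t, t - 2 ^ Nat.log 2 t, ?_, ?_⟩
  · have := Nat.pow_log_le_self 2 ht.ne'
    omega
  · have h1 := Nat.lt_pow_succ_log_self (b := 2) (by norm_num) t
    have h2 := Nat.pow_log_le_self 2 ht.ne'
    rw [Nat.succ_eq_add_one, pow_succ] at h1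
    omega

/-- a long gap in a large number with few ones -/
theorem exists_gap (s : ℕ) : ∀ n t : ℕ, al t = n → 2 ^ (n * (2 * s + 1) + 1) ≤ t →
    2 ^ (2 * s + 2) ∣ t ∨ ∃ ρ T c, t = T + c ∧ 0 < c ∧ 0 < T ∧ c < 2 ^ ρ ∧
      2 ^ (ρ + 2 * s + 1) ∣ T := by
  intro n
  induction n with
  | zero =>
    intro t ht hle
    have h0 : 0 < t := lt_of_lt_of_le (by positivity) hle
    obtain ⟨k, r, rfl, hr⟩ := log_split h0
    rw [al_split k _ _ dvd_rfl hr] at ht
    have h1 : al (2 ^ k) = 1 := by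
      have := al_pow2 k 1
      rw [mul_one] at this
      rw [this, al_rec]
      simp [al_zero]
    omega
  | succ n ih =>
    intro t ht hle
    have h0 : 0 < t := lt_of_lt_of_le (by positivity) hle
    obtain ⟨k, r, rfl, hr⟩ := log_split h0
    have h1 : al (2 ^ k) = 1 := by
      have := al_pow2 k 1
      rw [mul_one] at this
      rw [this, al_rec]
      simp [al_zero]
    rw [al_split k _ _ dvd_rfl hr, h1] at ht
    have hk : (n + 1) * (2 * s + 1) + 1 ≤ k := by
      by_contra hcon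
      have h2 : 2 ^ (k + 1) ≤ 2 ^ ((n + 1) * (2 * s + 1) + 1) :=
        Nat.pow_le_pow_right (by norm_num) (by omega)
      rw [pow_succ] at h2
      omega
    rcases Nat.eq_zero_or_pos r with h2 | h2
    · left
      rw [h2, add_zero]
      refine pow_dvd_pow 2 ?_
      have : 2 * s + 1 ≤ (n + 1) * (2 * s + 1) := Nat.le_mul_of_pos_left _ (by omega)
      omega
    · by_cases h3 : r < 2 ^ (k - (2 * s + 1))
      · right
        refine ⟨k - (2 * s + 1), 2 ^ k, r, rfl, h2, by positivity, h3, pow_dvd_pow 2 ?_⟩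
        have : 2 * s + 1 ≤ (n + 1) * (2 * s + 1) := Nat.le_mul_of_pos_left _ (by omega)
        omega
      · have h4 : 2 ^ (n * (2 * s + 1) + 1) ≤ r := by
          refine le_trans (Nat.pow_le_pow_right (by norm_num) ?_) (not_lt.mp h3)
          have : (n + 1) * (2 * s + 1) = n * (2 * s + 1) + (2 * s + 1) := by ring
          omega
        rcases ih r (by omega) h4 with h5 | ⟨ρ, T, c, h5, h6, h7, h8, h9⟩
        · left
          refine dvd_add (pow_dvd_pow 2 ?_) h5
          have : 2 * s + 1 ≤ (n + 1) * (2 * s + 1) := Nat.le_mul_of_pos_left _ (by omega)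
          omega
        · right
          refine ⟨ρ, 2 ^ k + T, c, by omega, h6, by omega, h8, dvd_add (pow_dvd_pow 2 ?_) h9⟩
          have h10 := Nat.le_of_dvd h7 h9
          have h11 : 2 ^ (ρ + 2 * s + 1) < 2 ^ k := by omega
          exact ((Nat.pow_lt_pow_iff_right (by norm_num)).mp h11).le

/-- **Reduction of the vanishing on the lines `≤ s` to finitely many degrees.** -/
theorem reduction (s : ℕ)
    (h : ∀ a ≤ s, ∀ t < 2 ^ (2 * s * (2 * s - 1)), a < al t → al t + 2 ≤ 2 * a →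
      ∀ α : Ext a (t : ℤ), α = 0) :
    ∀ t a, a ≤ s → a < al t → ∀ α : Ext a (t : ℤ), α = 0 := by
  intro t
  induction t using Nat.strong_induction_on with
  | _ t ih =>
    intro a ha hat
    by_cases h1 : 2 * a ≤ al t + 1
    · exact tw hat h1
    · by_cases h2 : t < 2 ^ (2 * s * (2 * s - 1))
      · exact h a ha t h2 hat (by omega)
      · have hs2 : 2 ≤ s := by omega
        have h3 : 2 ^ (al t * (2 * s + 1) + 1) ≤ t := by
          refine le_trans (Nat.pow_le_pow_right (by norm_num) ?_) (not_lt.mp h2)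
          obtain ⟨s', rfl⟩ : ∃ s', s = s' + 2 := ⟨s - 2, by omega⟩
          have h4 : al t ≤ 2 * (s' + 2) - 2 := by omega
          calc al t * (2 * (s' + 2) + 1) + 1 ≤ (2 * (s' + 2) - 2) * (2 * (s' + 2) + 1) + 1 :=
                Nat.add_le_add_right (Nat.mul_le_mul_right _ h4) 1
            _ = (2 * s' + 2) * (2 * s' + 5) + 1 := by
                congr 2 <;> omega
            _ ≤ (2 * s' + 4) * (2 * s' + 3) := by nlinarith
            _ = 2 * (s' + 2) * (2 * (s' + 2) - 1) := by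
                congr 1 <;> omega
        rcases exists_gap s _ t rfl h3 with h4 | ⟨ρ, T, c, h4, h5, h6, h7, h8⟩
        · obtain ⟨t', ht'⟩ : ∃ t', t = 2 * t' := by
            have : (2 : ℕ) ∣ t := dvd_trans (dvd_pow_self 2 (by omega)) h4
            exact this
          have h5 : 2 ^ (2 * s + 1) ∣ t' := by
            rw [ht', show 2 * s + 2 = (2 * s + 1) + 1 by omega, pow_succ'] at h4
            exact Nat.dvd_of_mul_dvd_mul_left (by norm_num) h4
          have ht0 : 0 < t := lt_of_lt_of_le (by positivity) h3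
          subst ht'
          rw [al_two] at hat
          exact half_van (dvd_trans (pow_dvd_pow 2 (by omega)) h5) (ih t' (by omega) a ha hat)
        · subst h4
          have h9 : al (T + c) = al T + al c :=
            al_split ρ T c (dvd_trans (pow_dvd_pow 2 (by omega)) h8) h7
          refine split_van (dvd_trans (pow_dvd_pow 2 (by omega)) h8) h7 fun x y hxy => ?_
          by_cases hx : x < al T
          · exact Or.inl (ih T (by omega) x (by omega) hx)
          · exact Or.inr (ih c (by omega) y (by omega) (by omega))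

end Pool.Agent.H749.GV
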